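import Pool.Agent.X39.Near.Sing
import Pool.Agent.X255.RH.Fx

/-!
# Singular matrices of logarithms at ALL algebraic points close to any point outside a set of dimension zero

Let `l_1, …, l_s` be analytic functions on a connected open set `V` such that the `exp (l_k)` are algebraic functions, and no
nontrivial integral combination of the `l_k` is constant, for instance branches of `log (z - c_k)`, `c_k` distinct. If the
algebraic functions are defined over the algebraic numbers, then the `l_k (z)` are logarithms of algebraic numbers for all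
algebraic `z`. Let further `ξ_1, …, ξ_g` be complex numbers (for instance `2 π i`, or other fixed logarithms of algebraic
numbers). We prove: outside ONE set of complex numbers `x` of Hausdorff dimension `0`, for all number fields `F ⊂ ℂ`, all
`ω > 0` and `k`, for all large `T` and ALL `z ∈ F` of height at most `T` with `|z - x| ≤ T ^ (-ω)`: for every subfield `K`
of `F` (for instance `K = ℚ`, the question Q1) such that Q1 holds over `K` for the space spanned by the `ξ_b` (clear if
`g ≤ 1`, e.g. `ξ_1 = 2 π i`, so that all branches of the logarithms are allowed), every singular matrix of size at most `k`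
with entries `∑ w_b ξ_b + ∑ c_q l_q (z)`, where the `w_b` and `c_q` are integers of `K` with conjugates at most `T ^ k`, has
a zero coefficient after a change of bases over `K`. In particular this holds at the convergents of all irrational real
numbers in `V` outside this set, from some point on.

Proof: the `l_q (z)` satisfy no relation of bounded complexity (`Pool.Agent.X39.Near`), so the determinant vanishes identically
as a polynomial in the `l_q (z)`; then a matrix of maximal rank of the family reduces the assertion to the space generated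
by the `ξ_b` (`Pool.Agent.Y921.SR.family`).
-/

set_option autoImplicit false

open Polynomial MeasureTheory NumberField

namespace Pool.Agent.Results.MP_1f047c_nt.ApproximationsOfAllNumbers

open Pool.Agent.X39.Near (Size)

/-- an algebraic function on `V` -/
def Algebraic (V : Set ℂ) (f : ℂ → ℂ) : Prop := ∃ Q : ℂ[X][X], Q ≠ 0 ∧ ∀ z ∈ V, Q.evalEval z (f z) = 0

/-- `l_1, …, l_s` are logarithms of algebraic functions on the connected open set `V`, multiplicatively independent modulo
constants. -/
structure Logarithms (V : Set ℂ) {s : ℕ} (l : Fin s → ℂ → ℂ) : Prop where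
  isOpen : IsOpen V
  isPreconnected : IsPreconnected V
  nonempty : V.Nonempty
  analytic : ∀ k, AnalyticOnNhd ℂ (l k) V
  algebraic : ∀ k, Algebraic V fun z => Complex.exp (l k z)
  /-- no nontrivial combination with integral coefficients is constant -/
  independent : ∀ (b : Fin s → ℤ) (c : ℂ), (∀ z ∈ V, ∑ k, (b k : ℂ) * l k z = c) → b = 0

/-- The matrix has a zero coefficient after a change of bases over `K ⊂ ℂ` (the embedding is `σ`): there are nonzero vectors
`u`, `v` over `K` with `uᵗ M v = 0`. -/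
def HasZero {K : Type} [Field K] (σ : K →+* ℂ) {n : ℕ} (M : Fin n → Fin n → ℂ) : Prop :=
  ∃ u v : Fin n → K, u ≠ 0 ∧ v ≠ 0 ∧ ∑ i, ∑ j, σ (u i) * M i j * σ (v j) = 0

/-- Q1 over `K` for the space spanned by the `ξ_b`: every singular square matrix, of any size, with entries
`∑ ξ_b w_b`, `w_b ∈ K`, has a zero coefficient after a change of bases over `K`. -/
def Q1Holds {K : Type} [Field K] (σ : K →+* ℂ) {g : ℕ} (ξ : Fin g → ℂ) : Prop :=
  ∀ n : ℕ, 1 ≤ n → ∀ w : Fin n → Fin n → Fin g → K,
    (Matrix.of fun i j => ∑ b, ξ b * σ (w i j b)).det = 0 → HasZero σ fun i j => ∑ b, ξ b * σ (w i j b)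

/-- Q1 over `K` in complexity `k` for the numbers `ξ_b` and `x_q` (if Q1 holds over `K` for the `ξ_b`): every singular `n × n`
matrix, `n ≤ k`, with entries `∑ ξ_b w_b + ∑ x_q c_q`, where the `w_b` and `c_q` are integers of `K` all of whose conjugates
are of absolute value at most `T ^ k`, has a zero coefficient after a change of bases over `K`. -/
def Q1Up {K : Type} [Field K] [NumberField K] (σ : K →+* ℂ) {g s : ℕ} (ξ : Fin g → ℂ) (x : Fin s → ℂ) (k : ℕ)
    (T : ℝ) : Prop :=
  Q1Holds σ ξ → ∀ n : ℕ, n ≤ k → ∀ (w : Fin n → Fin n → Fin g → 𝓞 K) (c : Fin n → Fin n → Fin s → 𝓞 K),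
    (∀ i j b (φ : K →+* ℂ), ‖φ (w i j b : K)‖ ≤ T ^ k) → (∀ i j q (φ : K →+* ℂ), ‖φ (c i j q : K)‖ ≤ T ^ k) →
    (Matrix.of fun i j => ∑ b, ξ b * σ (w i j b) + ∑ q, x q * σ (c i j q)).det = 0 →
    HasZero σ fun i j => ∑ b, ξ b * σ (w i j b) + ∑ q, x q * σ (c i j q)

/-- Q1 holds for one number -/
theorem q1Holds_of_le_one {K : Type} [Field K] (σ : K →+* ℂ) {g : ℕ} (hg : g ≤ 1) (ξ : Fin g → ℂ) :
    Q1Holds σ ξ := by
  classical
  intro n hn w hdet
  have hne : Nonempty (Fin n) := ⟨⟨0, hn⟩⟩
  rcases Nat.le_one_iff_eq_zero_or_eq_one.1 hg with rfl | rfl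
  · refine ⟨1, 1, one_ne_zero, one_ne_zero, ?_⟩
    simp
  · by_cases hξ : ξ 0 = 0
    · refine ⟨1, 1, one_ne_zero, one_ne_zero, ?_⟩
      simp [hξ]
    · have h1 : (Matrix.of fun i j => ∑ b, ξ b * σ (w i j b)) = ξ 0 • (Matrix.of fun i j => w i j 0).map σ := by
        ext i j
        simp
      rw [h1, Matrix.det_smul] at hdet
      have h2 : ((Matrix.of fun i j => w i j 0).map σ).det = 0 := by
        rcases mul_eq_zero.1 hdet with h | h
        · exact absurd h (pow_ne_zero _ hξ)
        · exact h
      have h3 : (Matrix.of fun i j => w i j 0).det = 0 := by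
        have h4 := RingHom.map_det σ (Matrix.of fun i j => w i j 0)
        rw [RingHom.mapMatrix_apply, h2] at h4
        exact (map_eq_zero σ).1 h4
      obtain ⟨v, hv, hmv⟩ := Matrix.exists_mulVec_eq_zero_iff.2 h3
      refine ⟨1, v, one_ne_zero, hv, ?_⟩
      refine Finset.sum_eq_zero fun i _ => ?_
      have h5 := congrFun hmv i
      simp only [Matrix.mulVec, dotProduct, Matrix.of_apply, Pi.zero_apply] at h5
      have h6 : ∑ j, σ (w i j 0) * σ (v j) = 0 := by
        rw [← map_zero σ, ← h5, map_sum]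
        exact Finset.sum_congr rfl fun j _ => (map_mul σ _ _).symm
      have h7 : ∑ j, σ ((1 : Fin n → K) i) * (∑ b, ξ b * σ (w i j b)) * σ (v j) =
          ξ 0 * ∑ j, σ (w i j 0) * σ (v j) := by
        rw [Finset.mul_sum]
        refine Finset.sum_congr rfl fun j _ => ?_
        simp
        ring
      rw [h7, h6, mul_zero]

/-- the functions are independent -/
theorem indep {s : ℕ} (hs : 0 < s) {V : Set ℂ} {l : Fin s → ℂ → ℂ} (h : Logarithms V l) :
    Pool.Agent.X255.RH.Indep V l := by
  have hF : Pool.Agent.Y776.Cv.FxM V (fun k : Fin 0 => k.elim0) (fun k : Fin 0 => k.elim0)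
      (fun k : Fin 0 => k.elim0) (Fin.append (fun k : Fin 0 => k.elim0) l) :=
    { isOpen := h.isOpen
      conn := h.isPreconnected
      ni := fun c => c.elim0
      ua := fun c => c.elim0
      un := fun c => c.elim0
      ui := fun c => c.elim0
      la := by
        intro k
        refine Fin.addCases (fun j => j.elim0) (fun j => ?_) k
        rw [Fin.append_right]
        exact h.analytic j
      li := by
        intro a c hc
        have h1 := h.independent (fun k => a (Fin.natAdd 0 k)) c (by
          intro z hz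
          rw [← hc z hz, Fin.sum_univ_add]
          simp only [Fin.append_right, Finset.univ_eq_empty, Finset.sum_empty, zero_add])
        funext k
        refine Fin.addCases (fun j => j.elim0) (fun j => ?_) k
        exact congrFun h1 j }
  have h1 := Pool.Agent.X255.RH.fx_mix hF (by simpa using hs) h.nonempty (fun j => j.elim0) h.algebraic
    (fun j => j.elim0)
  have he : ∀ (k : Fin s) (z : ℂ), Pool.Agent.Y776.Cv.yf (fun k : Fin 0 => k.elim0) (fun k : Fin 0 => k.elim0)
      (fun k : Fin 0 => k.elim0) (Fin.append (fun k : Fin 0 => k.elim0) l)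
      (Pool.Agent.X255.RH.gB 0 0 s (Sum.inr (Sum.inl k))) z = l k z := by
    intro k z
    simp [Pool.Agent.Y776.Cv.yf, Pool.Agent.X255.RH.gB]
  intro p hp
  have hinj : Function.Injective fun k : Fin s => (Sum.inr (Sum.inl k) : Fin 0 ⊕ (Fin s ⊕ (Fin 0 ⊕ Fin 0))) :=
    fun a b hab => by simpa using hab
  apply MvPolynomial.rename_injective _ hinj
  rw [map_zero]
  apply h1
  intro x hx
  rw [← hp x hx, ← Pool.Agent.X255.RH.evH_apply, ← Pool.Agent.X255.RH.evH_apply]
  simp only [Pool.Agent.X255.RH.evH, MvPolynomial.coe_eval₂Hom, MvPolynomial.eval₂_rename]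
  congr 1
  funext k
  exact he k x

theorem bound (k N : ℕ) {T : ℝ} (hT : ((k.factorial : ℝ) * (N + 1 : ℕ) ^ k) ≤ T) (n : ℕ) (hn : n ≤ k) :
    (n.factorial : ℝ) * ((N + 1 : ℕ) * T ^ k) ^ n ≤ T ^ (((k * k + 1 : ℕ) : ℝ)) := by
  have h1 : (1 : ℝ) ≤ ((N + 1 : ℕ) : ℝ) := by exact_mod_cast Nat.le_add_left 1 _
  have h2 : (1 : ℝ) ≤ (k.factorial : ℝ) := by exact_mod_cast Nat.factorial_pos k
  have h3 : (1 : ℝ) ≤ T := le_trans (by
    have := one_le_pow₀ h1 (n := k)
    nlinarith) hT
  have h4 : (1 : ℝ) ≤ (N + 1 : ℕ) * T ^ k := by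
    have := one_le_pow₀ h3 (n := k)
    nlinarith
  have h5 : (n.factorial : ℝ) ≤ k.factorial := by exact_mod_cast Nat.factorial_le hn
  have h6 : ((N + 1 : ℕ) * T ^ k) ^ n ≤ ((N + 1 : ℕ) * T ^ k) ^ k := pow_le_pow_right₀ h4 hn
  rw [Real.rpow_natCast]
  calc (n.factorial : ℝ) * ((N + 1 : ℕ) * T ^ k) ^ n ≤ k.factorial * ((N + 1 : ℕ) * T ^ k) ^ k :=
        mul_le_mul h5 h6 (by positivity) (by positivity)
    _ = (k.factorial * (N + 1 : ℕ) ^ k) * T ^ (k * k) := by rw [mul_pow, ← pow_mul]; ring
    _ ≤ T * T ^ (k * k) := mul_le_mul_of_nonneg_right hT (by positivity)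
    _ = T ^ (k * k + 1) := by rw [pow_succ]; ring

/-- **Theorem.** Let `l_1, …, l_s`, `s ≥ 1`, be logarithms of algebraic functions on `V`, multiplicatively independent modulo
constants, and let `ξ_1, …, ξ_g` be complex numbers. There is a set `E` of complex numbers of Hausdorff dimension `0` such
that: (1) for all `x ∈ V` outside `E`, all number fields `F` with an embedding `ι` in `ℂ`, all `k` and `ω > 0` there is
`T₁` such that for all `T ≥ T₁` and all `z ∈ F`, quotients of integers with conjugates at most `T`, with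
`|ι z - x| ≤ T ^ (-ω)`, Q1 holds over all subfields `K` of `F` in complexity `k` for the `ξ_b` and the logarithms `l_q (z)`;
(2) for all irrational real `x ∈ V` outside `E` and all `k`, Q1 holds in complexity `k` for the `ξ_b` and the logarithms
`l_q (z)` at the convergents `z` of `x` from some point on, `T` being the denominator. -/
theorem result {s g : ℕ} (hs : 0 < s) (V : Set ℂ) (l : Fin s → ℂ → ℂ) (hl : Logarithms V l) (ξ : Fin g → ℂ) :
    ∃ E : Set ℂ, dimH E = 0 ∧
      (∀ x ∈ V, x ∉ E → ∀ (F : Type) [Field F] [NumberField F] (ι : F →+* ℂ) (k : ℕ) (ω : ℝ), 0 < ω →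
        ∃ T₁ : ℝ, ∀ T : ℝ, T₁ ≤ T → ∀ z : F, Size F T z → ‖ι z - x‖ ≤ T ^ (-ω) →
          ∀ (K : Type) [Field K] [NumberField K] (j : K →+* F), Q1Up (ι.comp j) ξ (fun q => l q (ι z)) k T) ∧
      ∀ x : ℝ, Irrational x → (x : ℂ) ∈ V → (x : ℂ) ∉ E → ∀ k : ℕ, ∃ n₀ : ℕ, ∀ n : ℕ, n₀ ≤ n →
        Q1Up (algebraMap ℚ ℂ) ξ (fun q => l q (x.convergent n)) k (x.convergent n).den := by
  classical
  obtain ⟨E, h1, h2, h3⟩ := Pool.Agent.X39.Near.master_indep (q := 0) V hl.isOpen hl.isPreconnected
    l hl.analytic (indep hs hl) (fun k => k.elim0) 1 (by simp) ξ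
  have key : ∀ (F : Type) [Field F] [NumberField F] (ι : F →+* ℂ) (k : ℕ) (B T : ℝ) (z : F),
      (k.factorial : ℝ) * (g + s + 1 : ℕ) ^ k ≤ T →
      ¬ Pool.Agent.X39.Near.Dependent l (fun k : Fin 0 => k.elim0) 1 ξ F ι k ((k * k + 1 : ℕ) : ℝ) B T z →
      ∀ (K : Type) [Field K] [NumberField K] (j : K →+* F), Q1Up (ι.comp j) ξ (fun q => l q (ι z)) k T := by
    intro F _ _ ι k B T z hT hnd K _ _ j hQ n hn w c hw hc hdet
    have hT0 : 0 < T := by
      refine lt_of_lt_of_le ?_ hT
      have := Nat.factorial_pos k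
      positivity
    have hb := bound k (g + s) hT n hn
    exact Pool.Agent.X39.Near.zero_of_notDep l (fun k : Fin 0 => k.elim0) 1 ξ F ι hnd hT0 hn
      (R := T ^ k) (by positivity) (by simpa using hb) K j hQ w c hw hc hdet
  refine ⟨E, h1, ?_, ?_⟩
  · intro x hx hxE F _ _ ι k ω hω
    obtain ⟨B, T₁, h4⟩ := h2 x hx hxE F ι k (k * k + 1) ω hω
    refine ⟨max T₁ ((k.factorial : ℝ) * (g + s + 1 : ℕ) ^ k), fun T hT z hz hzx K _ _ j => ?_⟩
    exact key F ι k B T z ((le_max_right _ _).trans hT) (h4 T ((le_max_left _ _).trans hT) z hz hzx) K j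
  · intro x hx hxV hxE k
    obtain ⟨B, n₀, h4⟩ := h3 x hx hxV hxE k (k * k + 1)
    obtain ⟨n₁, h5⟩ := Pool.Agent.X39.Near.den_conv hx ((k.factorial : ℝ) * (g + s + 1 : ℕ) ^ k)
    refine ⟨max n₀ n₁, fun n hn => ?_⟩
    exact key ℚ (algebraMap ℚ ℂ) k B _ (x.convergent n) (h5 n ((le_max_right _ _).trans hn)).le
      (h4 n ((le_max_left _ _).trans hn)) ℚ (RingHom.id ℚ)

end Pool.Agent.Results.MP_1f047c_nt.ApproximationsOfAllNumbers
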