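import Pool.Agent.X255.RH.Sing2
import Pool.Agent.X255.RH.LogR
import Pool.Agent.X255.RH.Loc

/-!
# Singular matrices of logarithms of conjugate algebraic numbers

Let `P_j`, `Q_j` be nonzero polynomials such that the rational functions `P_j / Q_j` are multiplicatively independent
modulo constants, and let `l_j` be a branch of `log (P_j / Q_j)` on a connected open set `V`. If the `P_j`, `Q_j` have
algebraic coefficients and `x` is algebraic, then `l_j (x)` is a logarithm of an algebraic number. Let further
`ξ_1, …, ξ_m` be complex numbers (for instance `2 π i`, or other logarithms of algebraic numbers). Q1 asks whether every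
singular matrix of logarithms of algebraic numbers has a zero coefficient after a rational change of bases.

We prove that for 100% of the integral polynomials of degree `g` this holds for all singular matrices of bounded
complexity with entries in the space generated by the `ξ_b` and the logarithms `l_j (x)`, `x` ALL roots of the polynomial
(in `V`, at distance at least `1 / (k + 1)` from the complement), if it holds for the space generated by the `ξ_b` (this
is clear if the space is of dimension at most one, e.g. `m = 0` or `m = 1`, `ξ_1 = 2 π i`). The same over all number fields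
of bounded degree in place of `ℚ`.

Proof: for 100% of the polynomials the numbers `l_j (x)` satisfy no relation of bounded complexity (`Pool.Agent.X255.RH`),
so the determinant vanishes identically as a polynomial in the `l_j (x)`; then a matrix of maximal rank of the family
reduces the assertion to the space generated by the `ξ_b` (`Pool.Agent.Y921.SR.family`).
-/

set_option autoImplicit false

open Polynomial Filter NumberField
open scoped Classical

namespace Pool.Agent.Results.MP_1f047c_nt.ConjugateLogarithms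

/-- On the connected open set `V`, `l_j` is a branch of `log (P_j / Q_j)`, and the rational functions `P_j / Q_j` are
multiplicatively independent modulo constants: if `∏ P_j ^ m_j * Q_j ^ n_j = c * ∏ P_j ^ n_j * Q_j ^ m_j` then `m = n`. -/
structure Branches (V : Set ℂ) {r : ℕ} (P Q : Fin r → ℂ[X]) (l : Fin r → ℂ → ℂ) : Prop where
  isOpen : IsOpen V
  isPreconnected : IsPreconnected V
  nonempty : V.Nonempty
  P_ne : ∀ j, P j ≠ 0
  Q_ne : ∀ j, Q j ≠ 0
  independent : ∀ (m n : Fin r → ℕ) (c : ℂ), ∏ j, P j ^ m j * Q j ^ n j = C c * ∏ j, P j ^ n j * Q j ^ m j → m = n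
  analytic : ∀ j, AnalyticOnNhd ℂ (l j) V
  exp_l : ∀ j, ∀ x ∈ V, Complex.exp (l j x) * (Q j).eval x = (P j).eval x

/-- the polynomial `a_g X ^ g + … + a_0` -/
noncomputable def poly {g : ℕ} (a : Fin (g + 1) → ℤ) : ℂ[X] := ∑ i, C (a i : ℂ) * X ^ (i : ℕ)

/-- the roots of the polynomial in the set `V` -/
noncomputable def rootsIn (V : Set ℂ) {g : ℕ} (a : Fin (g + 1) → ℤ) : Finset ℂ :=
  (poly a).roots.toFinset.filter fun z => z ∈ V

/-- the `a` with `|a_i| ≤ T` -/
noncomputable def box (g T : ℕ) : Finset (Fin (g + 1) → ℤ) := Fintype.piFinset fun _ => Finset.Icc (-(T : ℤ)) T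

/-- the points whose distance to the complement of `V` is at least `1 / (k + 1)` -/
def region (V : Set ℂ) (k : ℕ) : Set ℂ := {z | Metric.ball z (1 / ((k : ℝ) + 1)) ⊆ V}

/-- the logarithms `l_j (x)`, `x` all roots of `a` in `V` -/
def logs {g r : ℕ} (V : Set ℂ) (l : Fin r → ℂ → ℂ) (a : Fin (g + 1) → ℤ) (q : {z // z ∈ rootsIn V a} × Fin r) : ℂ :=
  l q.2 q.1

/-- The matrix has a zero coefficient after a change of bases over `K`: there are nonzero vectors `w`, `v` over `K` with
`wᵗ M v = 0`. -/
def HasZero (K : IntermediateField ℚ ℂ) {n : ℕ} (M : Fin n → Fin n → ℂ) : Prop :=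
  ∃ w v : Fin n → K, w ≠ 0 ∧ v ≠ 0 ∧ ∑ i, ∑ j, (w i : ℂ) * M i j * (v j : ℂ) = 0

/-- Q1 over `K` for the space `W`: every singular square matrix, of any size, with entries in the `K`-space `W` has a zero
coefficient after a change of bases over `K`. -/
def Q1Holds {K : IntermediateField ℚ ℂ} (W : Submodule K ℂ) : Prop :=
  ∀ n : ℕ, 1 ≤ n → ∀ M : Matrix (Fin n) (Fin n) ℂ, (∀ i j, M i j ∈ W) → M.det = 0 → HasZero K M

/-- Q1 in complexity `k` for the numbers `ξ b` and `x q`: for every number field `K` of degree at most `k` such that Q1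
holds over `K` for the space spanned by the `ξ b`, every singular `n × n` matrix, `n ≤ k`, with entries
`∑ ξ b * w b + ∑ x q * c q`, where the `w b` and `c q` are integers of `K` all of whose conjugates are of absolute value
at most `T ^ k`, has a zero coefficient after a change of bases over `K`. -/
def Q1Up {m : ℕ} (ξ : Fin m → ℂ) (k : ℕ) (T : ℝ) {Q : Type} [Fintype Q] (x : Q → ℂ) : Prop :=
  ∀ (K : IntermediateField ℚ ℂ) [NumberField K], Module.finrank ℚ K ≤ k → Q1Holds (Submodule.span K (Set.range ξ)) →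
    ∀ n : ℕ, n ≤ k → ∀ (w : Fin n → Fin n → Fin m → 𝓞 K) (c : Fin n → Fin n → Q → 𝓞 K),
      (∀ i j b (φ : K →+* ℂ), ‖φ (w i j b : K)‖ ≤ T ^ k) → (∀ i j q (φ : K →+* ℂ), ‖φ (c i j q : K)‖ ≤ T ^ k) →
      (Matrix.of fun i j => ∑ b, ξ b * ((w i j b : K) : ℂ) + ∑ q, x q * ((c i j q : K) : ℂ)).det = 0 →
      HasZero K fun i j => ∑ b, ξ b * ((w i j b : K) : ℂ) + ∑ q, x q * ((c i j q : K) : ℂ)

/-- `a` is of degree `g`, with simple roots, and `Q1Up` holds for the logarithms at the roots in `region V k` -/
def Good {g r m : ℕ} (V : Set ℂ) (l : Fin r → ℂ → ℂ) (ξ : Fin m → ℂ) (k : ℕ) (T : ℝ) (a : Fin (g + 1) → ℤ) : Prop :=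
  a (Fin.last g) ≠ 0 ∧ (poly a).Separable ∧ Q1Up ξ k T (logs (region V k) l a)

/-- `a` is of degree `g`, its roots are simple, of absolute value at most `R`, at distance at least `η` from each other,
and the roots in `V` are at distance at least `η` from the complement of `V` -/
def Position (V : Set ℂ) (R η : ℝ) {g : ℕ} (a : Fin (g + 1) → ℤ) : Prop :=
  a (Fin.last g) ≠ 0 ∧ (poly a).Separable ∧ ∀ z, (poly a).eval z = 0 → ‖z‖ ≤ R ∧
    (∀ w, (poly a).eval w = 0 → w ≠ z → η ≤ ‖z - w‖) ∧ (z ∈ V → Metric.ball z η ⊆ V)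

theorem q1_iff {K : IntermediateField ℚ ℂ} (W : Submodule K ℂ) : Q1Holds W ↔ Pool.Agent.Y921.SR.ZeroProp W := by
  have h : ∀ (N : ℕ) (M : Matrix (Fin N) (Fin N) ℂ) (w v : Fin N → K),
      ∑ i, ∑ j, (w i : ℂ) * M i j * (v j : ℂ) = ∑ i, ∑ j, (w i * v j) • M i j := by
    intro N M w v
    refine Finset.sum_congr rfl fun i _ => Finset.sum_congr rfl fun j _ => ?_
    rw [Algebra.smul_def, map_mul]
    simp only [IntermediateField.algebraMap_apply]
    ring
  unfold Q1Holds Pool.Agent.Y921.SR.ZeroProp HasZero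
  simp only [h]

theorem q1up_iff {m : ℕ} (ξ : Fin m → ℂ) (k : ℕ) (T : ℝ) {Q : Type} [Fintype Q] (x : Q → ℂ) :
    Q1Up ξ k T x = Pool.Agent.X255.RH.SingProp ξ k T x := by
  unfold Q1Up Pool.Agent.X255.RH.SingProp
  simp only [q1_iff, HasZero]

/-- **Theorem.** Let `g ≥ 1`, let `l_j` be branches on `V` of the logarithms of rational functions multiplicatively
independent modulo constants, and let `ξ_1, …, ξ_m` be complex numbers.
(1) For every `k` there is a `T₀` such that for `T ≥ T₀` all but a proportion `1 / k` of the integral polynomials of degree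
at most `g` with coefficients of absolute value at most `T` are of degree `g`, with simple roots, and Q1 holds in
complexity `k` for the `ξ_b` and the logarithms `l_j (x)`, `x` all roots in `region V k`.
(2) For fixed `k`, `R`, `η > 0` and `ε > 0`, Q1 in complexity `k` for the roots in `V` fails for at most `C T ^ (g + ε)` of
the about `(2 T) ^ (g + 1)` polynomials whose roots are in the position `Position V R η`. -/
theorem result (g r m : ℕ) (hg : 0 < g) (V : Set ℂ) (P Q : Fin r → ℂ[X]) (l : Fin r → ℂ → ℂ) (hB : Branches V P Q l)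
    (ξ : Fin m → ℂ) :
    (∀ k : ℕ, 1 ≤ k → ∃ T₀ : ℕ, ∀ T : ℕ, T₀ ≤ T →
      (k : ℝ) * ((box g T).filter fun a => ¬ Good V l ξ k T a).card ≤ (box g T).card) ∧
    ∀ (k : ℕ) (R η ε : ℝ), 0 < η → 0 < ε → ∃ C : ℝ, ∀ T : ℕ, 1 ≤ T →
      (((box g T).filter fun a => Position V R η a ∧ ¬ Q1Up ξ k T (logs V l a)).card : ℝ) ≤
        C * (T : ℝ) ^ ((g : ℝ) + ε) := by
  have hind := Pool.Agent.X255.RH.logR_indep hB.isPreconnected hB.isOpen hB.nonempty P Q hB.P_ne hB.Q_ne hB.independent l
    hB.analytic hB.exp_l
  refine ⟨fun k hk => ?_, fun k R η ε hη hε => ?_⟩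
  · obtain ⟨T₀, h⟩ := Pool.Agent.X255.RH.sing_all (g := g) hg hB.isPreconnected hB.isOpen
      (Pool.Agent.X255.RH.tame_deep V k) hB.analytic hind ξ k hk
    refine ⟨T₀, fun T hT => le_trans ?_ (h T hT)⟩
    refine mul_le_mul_of_nonneg_left ?_ (Nat.cast_nonneg _)
    refine Nat.cast_le.2 (Finset.card_le_card fun a ha => ?_)
    rw [Finset.mem_filter] at ha ⊢
    refine ⟨ha.1, fun hgood => ha.2 ⟨hgood.1, hgood.2.1, ?_⟩⟩
    rw [q1up_iff]
    exact hgood.2.2
  · obtain ⟨C, hC⟩ := Pool.Agent.X255.RH.sing_eps (g := g) hg hB.isPreconnected hB.isOpen hB.analytic hind V ξ k R η ε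
      hη hε
    refine ⟨C, fun T hT => le_trans ?_ (hC T hT)⟩
    refine Nat.cast_le.2 (Finset.card_le_card fun a ha => ?_)
    rw [Finset.mem_filter] at ha ⊢
    refine ⟨ha.1, ha.2.1, fun hno => ha.2.2 ?_⟩
    rw [q1up_iff]
    exact hno

end Pool.Agent.Results.MP_1f047c_nt.ConjugateLogarithms
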