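import Mathlib
import Pool.Agent.X142.DN.Dets2

/-!
# Few nearly singular matrices of logarithms of rational numbers

For every finite set `A` of positive rational numbers of height at most `X` at most
`C X^ε |A|^(n^2 - 2)` of the `|A|^(n^2)` matrices `(log a_ij)` with `a_ij ∈ A` have a determinant of
absolute value at most `X^{-w}`.
-/

set_option autoImplicit false

namespace Pool.Agent.Results.MP_1f047c_nt.NearlySingular

open Finset

/-- The matrix of logarithms of the entries of a rational matrix. -/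
noncomputable def logMatrix {n : ℕ} (M : Matrix (Fin n) (Fin n) ℚ) : Matrix (Fin n) (Fin n) ℝ :=
  Matrix.of fun i j => Real.log (M i j : ℝ)

/-- `r` is positive and its numerator and denominator are at most `X`. -/
def Height (X : ℕ) (r : ℚ) : Prop := 0 < r ∧ r.num ≤ X ∧ r.den ≤ X

/-- The conclusion of the problem: some non-zero rational vectors `w`, `v` have `w^t M v = 0`. -/
def HasRationalZero {n : ℕ} (M : Matrix (Fin n) (Fin n) ℝ) : Prop :=
  ∃ w v : Fin n → ℚ, w ≠ 0 ∧ v ≠ 0 ∧ ∑ i, ∑ j, (w i : ℝ) * M i j * (v j : ℝ) = 0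

/-- Let `n ≥ 2` and `ε > 0`. There are `w` and `C` such that for every integer `X ≥ 1`:
(1) if `A` is a finite set of positive rational numbers of height at most `X`, then at most
`C X^ε |A|^(n^2 - 2)` of the `n × n` matrices `(a_ij)` with entries in `A` satisfy
`|det (log a_ij)| ≤ X^{-w}`; in particular the assertion of the problem, that `det (log a_ij) = 0`
implies the existence of non-zero rational vectors `w, v` with `w^t (log a_ij) v = 0`, fails for at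
most that many matrices;
(2) at most `C X^(n^2 - 2 + ε)` of the matrices of integers `1 ≤ a_ij ≤ X` satisfy
`|det (log a_ij)| ≤ X^{-w}`. -/
theorem result (n : ℕ) (hn : 2 ≤ n) (ε : ℝ) (hε : 0 < ε) : ∃ w C : ℝ, ∀ X : ℕ, 1 ≤ X →
    (∀ A : Finset ℚ, (∀ a ∈ A, Height X a) →
      (({M : Matrix (Fin n) (Fin n) ℚ | (∀ i j, M i j ∈ A) ∧
        |(logMatrix M).det| ≤ (X : ℝ) ^ (-w)}.ncard : ℕ) : ℝ) ≤
          C * (X : ℝ) ^ ε * (A.card : ℝ) ^ (n ^ 2 - 2) ∧
      (({M : Matrix (Fin n) (Fin n) ℚ | (∀ i j, M i j ∈ A) ∧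
        ¬ ((logMatrix M).det = 0 → HasRationalZero (logMatrix M))}.ncard : ℕ) : ℝ) ≤
          C * (X : ℝ) ^ ε * (A.card : ℝ) ^ (n ^ 2 - 2)) ∧
    ((({M : Matrix (Fin n) (Fin n) ℚ | (∀ i j, ∃ k : ℕ, 1 ≤ k ∧ k ≤ X ∧ M i j = k) ∧
        |(logMatrix M).det| ≤ (X : ℝ) ^ (-w)}.ncard : ℕ) : ℝ) ≤
          C * (X : ℝ) ^ ((n : ℝ) ^ 2 - 2 + ε)) := by
  classical
  obtain ⟨n, rfl⟩ : ∃ k, n = k + 2 := ⟨n - 2, by omega⟩
  obtain ⟨w, C, hC, h⟩ := Pool.Agent.X142.DN.dets ε hε n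
  refine ⟨(w : ℝ), C, ?_⟩
  intro X hX
  have hXr : (1 : ℝ) ≤ X := by exact_mod_cast hX
  have hXp : (0 : ℝ) < X := by linarith
  have hw : (X : ℝ) ^ (-(w : ℝ)) = ((X : ℝ) ^ w)⁻¹ := by
    rw [Real.rpow_neg hXp.le, Real.rpow_natCast]
  have hfinA : ∀ (A : Finset ℚ) (Z : Set (Matrix (Fin (n + 2)) (Fin (n + 2)) ℚ)),
      (∀ M ∈ Z, ∀ i j, M i j ∈ A) → Z.Finite := by
    intro A Z hZ
    refine (Finset.finite_toSet (Fintype.piFinset fun _ : Fin (n + 2) =>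
      Fintype.piFinset fun _ : Fin (n + 2) => A)).subset ?_
    intro M hM
    rw [Finset.mem_coe, Fintype.mem_piFinset]
    intro i
    rw [Fintype.mem_piFinset]
    exact hZ M hM i
  have hA : ∀ A : Finset ℚ, (∀ a ∈ A, Height X a) →
      (({M : Matrix (Fin (n + 2)) (Fin (n + 2)) ℚ | (∀ i j, M i j ∈ A) ∧
        |(logMatrix M).det| ≤ (X : ℝ) ^ (-(w : ℝ))}.ncard : ℕ) : ℝ) ≤
          C * (X : ℝ) ^ ε * (A.card : ℝ) ^ ((n + 2) ^ 2 - 2) := by
    intro A hA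
    have hfin := hfinA A {M | (∀ i j, M i j ∈ A) ∧
        |(logMatrix M).det| ≤ (X : ℝ) ^ (-(w : ℝ))} (fun M hM => hM.1)
    rw [Set.ncard_eq_toFinset_card _ hfin]
    refine h X hX A hA _ fun M hM => ?_
    obtain ⟨h1, h2⟩ := hfin.mem_toFinset.1 hM
    rw [hw] at h2
    exact ⟨h1, h2⟩
  refine ⟨fun A hAX => ⟨hA A hAX, ?_⟩, ?_⟩
  · refine le_trans ?_ (hA A hAX)
    have hfin := hfinA A {M | (∀ i j, M i j ∈ A) ∧
        |(logMatrix M).det| ≤ (X : ℝ) ^ (-(w : ℝ))} (fun M hM => hM.1)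
    have hsub : {M : Matrix (Fin (n + 2)) (Fin (n + 2)) ℚ | (∀ i j, M i j ∈ A) ∧
        ¬ ((logMatrix M).det = 0 → HasRationalZero (logMatrix M))} ⊆
        {M | (∀ i j, M i j ∈ A) ∧ |(logMatrix M).det| ≤ (X : ℝ) ^ (-(w : ℝ))} := by
      rintro M ⟨h1, h2⟩
      push Not at h2
      refine ⟨h1, ?_⟩
      rw [h2.1, abs_zero]
      positivity
    exact_mod_cast Set.ncard_le_ncard hsub hfin
  · set A : Finset ℚ := (Finset.Icc 1 X).image (fun k : ℕ => (k : ℚ)) with hAdef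
    have hcard : A.card = X := by
      rw [hAdef, Finset.card_image_of_injective _ Nat.cast_injective, Nat.card_Icc,
        Nat.add_sub_cancel]
    have hmem : ∀ a : ℚ, a ∈ A ↔ ∃ k : ℕ, 1 ≤ k ∧ k ≤ X ∧ a = k := by
      intro a
      rw [hAdef, Finset.mem_image]
      constructor
      · rintro ⟨k, hk, rfl⟩
        exact ⟨k, (Finset.mem_Icc.1 hk).1, (Finset.mem_Icc.1 hk).2, rfl⟩
      · rintro ⟨k, h3, h4, rfl⟩
        exact ⟨k, Finset.mem_Icc.2 ⟨h3, h4⟩, rfl⟩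
    have h3 := hA A (by
      intro a ha
      obtain ⟨k, hk1, hkX, rfl⟩ := (hmem a).1 ha
      refine ⟨by exact_mod_cast hk1, ?_, ?_⟩
      · rw [Rat.num_natCast]
        exact_mod_cast hkX
      · rw [Rat.den_natCast]
        exact hX)
    rw [hcard] at h3
    have h4 : {M : Matrix (Fin (n + 2)) (Fin (n + 2)) ℚ |
        (∀ i j, ∃ k : ℕ, 1 ≤ k ∧ k ≤ X ∧ M i j = k) ∧
        |(logMatrix M).det| ≤ (X : ℝ) ^ (-(w : ℝ))} =
        {M | (∀ i j, M i j ∈ A) ∧ |(logMatrix M).det| ≤ (X : ℝ) ^ (-(w : ℝ))} := by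
      ext M
      simp only [Set.mem_setOf_eq, hmem]
    rw [h4]
    refine h3.trans (le_of_eq ?_)
    have h7 : 2 ≤ (n + 2) ^ 2 := by
      have h8 : (n + 2) ^ 2 = n ^ 2 + 4 * n + 4 := by ring
      omega
    have h5 : (X : ℝ) ^ ((((n + 2 : ℕ) : ℝ)) ^ 2 - 2 + ε) =
        (X : ℝ) ^ ((n + 2) ^ 2 - 2) * (X : ℝ) ^ ε := by
      have e : (((n + 2) ^ 2 - 2 : ℕ) : ℝ) = (((n + 2 : ℕ) : ℝ)) ^ 2 - 2 := by
        rw [Nat.cast_sub h7]
        push_cast
        ring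
      rw [Real.rpow_add hXp, ← e, Real.rpow_natCast]
    rw [h5]
    ring

end Pool.Agent.Results.MP_1f047c_nt.NearlySingular
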