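import Pool.Agent.Y921.SR.Fin

/-!
# Singular matrices of logarithms: windows of algebraic numbers far from the origin

Let `r`, `d`, `m` be given. There is an exponent `E` such that the following holds for all `H` and all integers
`t ≥ (H + 2) ^ E`. Let `K ⊂ ℂ` be a number field of degree at most `d` and `V` a `K`-space of complex numbers of dimension
at most `m`, for which the assertion Q1 holds over `K` (for instance `V = 0` or `dim V = 1`). Then there is a set `S` of at
most `m + 2` complex numbers such that for all distinct nonzero algebraic numbers `β_1, ..., β_r` outside of `S`, which are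
zeros of nonzero integer polynomials of degree at most `d` with coefficients of absolute value at most `H`, and for all
choices of the logarithms `l_i` of `t + β_i`: the `l_i` are `K`-linearly independent modulo `V`, and Q1 holds over `K` for
all matrices of all sizes with entries in `V + K l_1 + ... + K l_r`.

This statement is deterministic: it concerns all large `t`; the starting result `TuplesPowerSaving` concerns almost all
tuples of integers and fixed shifts.
-/

set_option autoImplicit false

open Module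

namespace Pool.Agent.Results.MP_1f047c_nt.WindowsNumberFields

/-- Every singular square matrix, of any size, with entries in the `K`-space `V` satisfies the conclusion of Q1 over
`K`. For `K = ℚ` this is the assertion of Q1 for the matrices with entries in `V`. -/
def Q1Holds {K : IntermediateField ℚ ℂ} (V : Submodule K ℂ) : Prop :=
  ∀ N : ℕ, 1 ≤ N → ∀ M : Matrix (Fin N) (Fin N) ℂ, (∀ i j, M i j ∈ V) → M.det = 0 →
    ∃ w v : Fin N → K, w ≠ 0 ∧ v ≠ 0 ∧ ∑ i, ∑ j, (w i : ℂ) * M i j * (v j : ℂ) = 0

/-- `β` is a zero of a nonzero integer polynomial of degree at most `d` whose coefficients have absolute value at most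
`H`. -/
def SmallAlg (d H : ℕ) (β : ℂ) : Prop :=
  ∃ p : Polynomial ℤ, p ≠ 0 ∧ p.natDegree ≤ d ∧ (∀ j, |p.coeff j| ≤ (H : ℤ)) ∧ Polynomial.aeval β p = 0

theorem q1_iff {K : IntermediateField ℚ ℂ} (V : Submodule K ℂ) : Q1Holds V ↔ Pool.Agent.Y921.SR.ZeroProp V := by
  have h : ∀ (N : ℕ) (M : Matrix (Fin N) (Fin N) ℂ) (w v : Fin N → K),
      ∑ i, ∑ j, (w i : ℂ) * M i j * (v j : ℂ) = ∑ i, ∑ j, (w i * v j) • M i j := by
    intro N M w v
    refine Finset.sum_congr rfl fun i _ => Finset.sum_congr rfl fun j _ => ?_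
    rw [Algebra.smul_def, map_mul]
    simp only [IntermediateField.algebraMap_apply]
    ring
  unfold Q1Holds Pool.Agent.Y921.SR.ZeroProp
  simp only [h]

theorem result (r d m : ℕ) : ∃ E : ℕ, ∀ H t : ℕ, (H + 2) ^ E ≤ t →
    ∀ K : IntermediateField ℚ ℂ, FiniteDimensional ℚ K → finrank ℚ K ≤ d →
    ∀ V : Submodule K ℂ, Module.Finite K V → finrank K V ≤ m → (finrank K V ≤ 1 ∨ Q1Holds V) →
    ∃ S : Finset ℂ, S.card ≤ m + 2 ∧
      ∀ β : Fin r → ℂ, Function.Injective β → (∀ i, β i ∉ S ∧ β i ≠ 0 ∧ SmallAlg d H (β i)) →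
      ∀ l : Fin r → ℂ, (∀ i, Complex.exp (l i) = t + β i) →
        finrank K (V ⊔ Submodule.span K (Set.range l) : Submodule K ℂ) = finrank K V + r ∧
          Q1Holds (V ⊔ Submodule.span K (Set.range l)) := by
  obtain ⟨E, hE⟩ := Pool.Agent.Y921.SR.window_field r d m
  refine ⟨E, fun H t ht K hK hKd V hV hVm hV0 => ?_⟩
  have hV1 : Pool.Agent.Y921.SR.ZeroProp V := by
    rcases hV0 with h1 | h1
    · exact Pool.Agent.Y921.SR.zeroProp_small V h1
    · exact (q1_iff V).1 h1
  obtain ⟨S, hS, h⟩ := hE H t ht K hK hKd V hV hVm hV1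
  refine ⟨S, hS, fun β hinj hβ l hl => ?_⟩
  obtain ⟨h1, h2⟩ := h β hinj (fun i => ⟨(hβ i).1, (hβ i).2.1⟩) (fun i => (hβ i).2.2) l hl
  exact ⟨h1, (q1_iff _).2 h2⟩

end Pool.Agent.Results.MP_1f047c_nt.WindowsNumberFields
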